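import Mathlib

/-!
# Sentences of the forcing language about ultrafilters on countable sets (MP_21276c)

A sentence of the forcing language of a preordered set `P` of conditions is represented by the set
of the conditions which force it. Negation, conjunction and universal quantification are the
primitive connectives, with their usual forcing clauses; the other connectives are defined from
them classically. A name for a subset of a ground model set `S` is a map sending `s : S` to the
set of the conditions attached to `s`. Ultrafilters on a countable set `X` are named by maps
`Set X → Set P`; this is enough when every subset of a countable set in the extension is in the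
ground model (`NoNewSubsets`), and then the functions from `X` to `ℕ` in the extension are the
ones of the ground model as well.
-/

set_option autoImplicit false

namespace Pool.Agent.H12A.QP

section

variable {P : Type} [Preorder P]

/-- `p` forces `not φ` iff no `q ≤ p` forces `φ`. -/
def fnot (φ : Set P) : Set P := {p | ∀ q ≤ p, q ∉ φ}

/-- `p` forces `φ and ψ` iff it forces both. -/
def fand (φ ψ : Set P) : Set P := {p | p ∈ φ ∧ p ∈ ψ}

/-- `p` forces `for all i, φ i` iff it forces every `φ i`. -/
def fall {ι : Type} (φ : ι → Set P) : Set P := {p | ∀ i, p ∈ φ i}

/-- `φ implies ψ` is `not (φ and not ψ)`. -/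
def fimp (φ ψ : Set P) : Set P := fnot (fand φ (fnot ψ))

/-- `φ if and only if ψ`. -/
def fiff (φ ψ : Set P) : Set P := fand (fimp φ ψ) (fimp ψ φ)

/-- `there is i with φ i` is `not for all i, not φ i`. -/
def fex {ι : Type} (φ : ι → Set P) : Set P := fnot (fall fun i => fnot (φ i))

/-- An absolute statement about ground model objects. -/
def fground (h : Prop) : Set P := {_p | h}

/-- `p` forces that the generic filter meets the set `N` of conditions:
the set of `r` lying below some member of `N` is dense below `p`. -/
def meets (N : Set P) : Set P := {p | ∀ q ≤ p, ∃ r ≤ q, ∃ s ∈ N, r ≤ s}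

end

section

variable (P : Type) [Preorder P]

/-- Every subset of `Y` in the extension is in the ground model. -/
def NoNewSubsets (Y : Type) : Set P :=
  fall fun x : Y → Set P => fex fun Z : Set Y => fall fun y : Y =>
    fiff (meets (x y)) (fground (y ∈ Z))

variable {P} {X Y : Type}

/-- `U` is a nonprincipal ultrafilter on `X`: it is upward closed, closed under intersections, for
every set `B` it contains exactly one of `B` and its complement, and its members are infinite. -/
def IsUltra (U : Set X → Set P) : Set P :=
  fand (fall fun B => fall fun B' =>
      fimp (fand (meets (U B)) (fground (B ⊆ B'))) (meets (U B')))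
    (fand (fall fun B => fall fun B' =>
        fimp (fand (meets (U B)) (meets (U B'))) (meets (U (B ∩ B'))))
      (fand (fall fun B => fiff (meets (U Bᶜ)) (fnot (meets (U B))))
        (fall fun B => fimp (meets (U B)) (fground B.Infinite))))

/-- `U` is a p-point: every `f : X → ℕ` is constant or finite-to-one on some set in `U`. -/
def IsPPoint (U : Set X → Set P) : Set P :=
  fand (IsUltra U) (fall fun f : X → ℕ => fex fun B : Set X => fand (meets (U B))
    (fground ((∃ c, ∀ x ∈ B, f x = c) ∨ ∀ c, {x | x ∈ B ∧ f x = c}.Finite)))

/-- `U` is a q-point: every finite-to-one `f : X → ℕ` is injective on some set in `U`. -/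
def IsQPoint (U : Set X → Set P) : Set P :=
  fand (IsUltra U) (fall fun f : X → ℕ => fimp (fground (∀ c, {x | f x = c}.Finite))
    (fex fun B : Set X => fand (meets (U B)) (fground (Set.InjOn f B))))

/-- `U` is selective: every `f : X → ℕ` is constant or injective on some set in `U`. -/
def IsSelective (U : Set X → Set P) : Set P :=
  fand (IsUltra U) (fall fun f : X → ℕ => fex fun B : Set X => fand (meets (U B))
    (fground ((∃ c, ∀ x ∈ B, f x = c) ∨ Set.InjOn f B)))

/-- The Fubini limit of the `V n` along `W`: a set `A` belongs to it if and only if
there is `Z` in `W` such that `Z` is the set of all `n` with `{x | (n, x) ∈ A}` in `V n`. -/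
def fubiniLim (W : Set ℕ → Set P) (V : ℕ → Set X → Set P) (A : Set (ℕ × X)) : Set P :=
  fex fun Z : Set ℕ => fand (meets (W Z))
    (fall fun n : ℕ => fiff (fground (n ∈ Z)) (meets (V n {x | (n, x) ∈ A})))

/-- `V` is Tukey reducible to `U`: there is a map `g` from `U` to `V` (`g A B` says that the value
at `A` is `B`) which is monotone and has an image cofinal in `V` with respect to `⊇`. -/
def TukeyLE (V : Set Y → Set P) (U : Set X → Set P) : Set P :=
  fex fun g : Set X → Set Y → Set P =>
    fand (fall fun A => fimp (meets (U A)) (fex fun B => fand (meets (g A B)) (meets (V B))))
      (fand (fall fun A => fall fun A' => fall fun B => fall fun B' =>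
          fimp (fand (fand (meets (g A B)) (meets (g A' B'))) (fground (A ⊆ A')))
            (fground (B ⊆ B')))
        (fall fun C => fimp (meets (V C))
          (fex fun A => fex fun B => fand (meets (U A)) (fand (meets (g A B))
            (fground (B ⊆ C))))))

end

end Pool.Agent.H12A.QP
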