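import Pool.Agent.H12A.QP.Defs

/-!
# The product of countably many copies of `P(ω)/fin`, with full support (MP_21276c)
-/

set_option autoImplicit false

namespace Pool.Agent.H12A.QP

open Set

section General

variable {P : Type} [Preorder P]

theorem mem_fex {ι : Type} {φ : ι → Set P} {p : P} :
    p ∈ fex φ ↔ ∀ q ≤ p, ∃ r ≤ q, ∃ i, r ∈ φ i := by
  simp only [fex, fnot, fall, Set.mem_ofPred_eq, not_forall, not_not]
  constructor
  · intro h q hq
    obtain ⟨i, r, hr, h'⟩ := h q hq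
    exact ⟨r, hr, i, h'⟩
  · intro h q hq
    obtain ⟨r, hr, i, h'⟩ := h q hq
    exact ⟨i, r, hr, h'⟩

theorem mem_fimp {φ ψ : Set P} {p : P} :
    p ∈ fimp φ ψ ↔ ∀ q ≤ p, q ∈ φ → ∃ r ≤ q, r ∈ ψ := by
  simp only [fimp, fnot, fand, Set.mem_ofPred_eq, not_and, not_forall, not_not]
  constructor
  · intro h q hq h'
    obtain ⟨r, hr, h''⟩ := h q hq h'
    exact ⟨r, hr, h''⟩
  · intro h q hq h'
    obtain ⟨r, hr, h''⟩ := h q hq h'
    exact ⟨r, hr, h''⟩

theorem fimp_of {φ ψ : Set P} {p : P} (h : ∀ q ≤ p, q ∈ φ → q ∈ ψ) : p ∈ fimp φ ψ :=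
  mem_fimp.2 fun q hq h' => ⟨q, le_rfl, h q hq h'⟩

/-- The statement `φ` is preserved by passing to stronger conditions. -/
def Down (φ : Set P) : Prop := ∀ p ∈ φ, ∀ q ≤ p, q ∈ φ

theorem down_fnot (φ : Set P) : Down (fnot φ) :=
  fun _ hp _ hq r hr => hp r (hr.trans hq)

theorem down_fex {ι : Type} (φ : ι → Set P) : Down (fex φ) := down_fnot _

theorem down_meets (N : Set P) : Down (meets N) :=
  fun _ hp _ hq r hr => hp r (hr.trans hq)

theorem meets_of_mem {N : Set P} {p : P} (h : p ∈ N) : p ∈ meets N :=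
  fun q hq => ⟨q, le_rfl, p, h, hq⟩

theorem mem_fex_of {ι : Type} {φ : ι → Set P} {p : P} (i : ι) (hd : Down (φ i))
    (h : p ∈ φ i) : p ∈ fex φ :=
  mem_fex.2 fun q hq => ⟨q, le_rfl, i, hd _ h _ hq⟩

theorem meets_fex {ι : Type} (φ : ι → Set P) : meets (fex φ) = fex φ := by
  ext p
  constructor
  · intro h
    refine mem_fex.2 fun q hq => ?_
    obtain ⟨r, hr, s, hs, hrs⟩ := h q hq
    obtain ⟨t, ht, i, hi⟩ := mem_fex.1 hs r hrs
    exact ⟨t, ht.trans hr, i, hi⟩
  · exact meets_of_mem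

end General

/-- Conditions: sequences of infinite subsets of `ℕ`. -/
def Cnd : Type := ℕ → {A : Set ℕ // A.Infinite}

theorem fin_trans {A B C : Set ℕ} (h1 : (A \ B).Finite) (h2 : (B \ C).Finite) :
    (A \ C).Finite := by
  refine (h1.union h2).subset ?_
  intro x hx
  by_cases h : x ∈ B
  · exact Or.inr ⟨h, hx.2⟩
  · exact Or.inl ⟨hx.1, h⟩

/-- `p ≤ q` if `p i` is almost contained in `q i` for all `i`. -/
instance : Preorder Cnd where
  le p q := ∀ i, ((p i).1 \ (q i).1).Finite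
  le_refl p i := by simp
  le_trans p q r h h' i := fin_trans (h i) (h' i)

theorem Cnd.le_def {p q : Cnd} : p ≤ q ↔ ∀ i, ((p i).1 \ (q i).1).Finite := Iff.rfl

instance : Nonempty Cnd := ⟨fun _ => ⟨univ, infinite_univ⟩⟩

/-- an infinite pseudo-intersection -/
theorem pseudo (A : ℕ → Set ℕ) (hA : ∀ n, (A n).Infinite)
    (h : ∀ n, (A (n + 1) \ A n).Finite) : ∃ B : Set ℕ, B.Infinite ∧ ∀ n, (B \ A n).Finite := by
  have h1 : ∀ n m, n ≤ m → (A m \ A n).Finite := by
    intro n m hnm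
    induction m, hnm using Nat.le_induction with
    | base => simp
    | succ m _ ih => exact fin_trans (h m) ih
  have h2 : ∀ n, (⋂ k ∈ Iic n, A k).Infinite := by
    intro n
    have h3 : A n ⊆ (⋂ k ∈ Iic n, A k) ∪ ⋃ k ∈ Iic n, (A n \ A k) := by
      intro x hx
      by_cases hc : x ∈ ⋂ k ∈ Iic n, A k
      · exact Or.inl hc
      · right
        simp only [mem_iInter, not_forall] at hc
        obtain ⟨k, hk, hc⟩ := hc
        exact mem_biUnion hk ⟨hx, hc⟩
    intro hf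
    apply hA n
    refine (hf.union ((finite_Iic n).biUnion fun k hk => h1 k n hk)).subset h3
  choose f hf1 hf2 using fun (n : ℕ) (m : ℕ) => (h2 n).exists_gt m
  let x : ℕ → ℕ := fun n => Nat.rec (f 0 0) (fun n y => f (n + 1) y) n
  have hx1 : ∀ n, x n ∈ ⋂ k ∈ Iic n, A k := by
    intro n
    cases n with
    | zero => exact hf1 0 0
    | succ n => exact hf1 (n + 1) (x n)
  have hx2 : StrictMono x := strictMono_nat_of_lt_succ fun n => hf2 (n + 1) (x n)
  refine ⟨range x, infinite_range_of_injective hx2.injective, fun n => ?_⟩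
  refine ((finite_Iio n).image x).subset ?_
  rintro _ ⟨⟨m, rfl⟩, hm⟩
  refine ⟨m, ?_, rfl⟩
  by_contra hcon
  simp only [mem_Iio, not_lt] at hcon
  exact hm (mem_iInter₂.1 (hx1 m) n hcon)

/-- the forcing is `σ`-closed -/
theorem closed (s : ℕ → Cnd) (hs : ∀ n, s (n + 1) ≤ s n) : ∃ q, ∀ n, q ≤ s n := by
  choose B hB1 hB2 using fun i => pseudo (fun n => (s n i).1) (fun n => (s n i).2)
    (fun n => hs n i)
  exact ⟨fun i => ⟨B i, hB1 i⟩, fun n i => hB2 i n⟩

/-- countably many sentences can be decided -/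
theorem decide_seq {Y : Type} [Countable Y] (φ : Y → Set Cnd) (hφ : ∀ y, Down (φ y)) (p : Cnd) :
    ∃ q ≤ p, ∀ y, q ∈ φ y ∨ q ∈ fnot (φ y) := by
  cases isEmpty_or_nonempty Y with
  | inl h => exact ⟨p, le_rfl, fun y => (h.false y).elim⟩
  | inr h =>
    obtain ⟨e, he⟩ := exists_surjective_nat Y
    have step : ∀ (n : ℕ) (r : Cnd), ∃ t ≤ r, t ∈ φ (e n) ∨ t ∈ fnot (φ (e n)) := by
      intro n r
      by_cases h1 : ∃ t ≤ r, t ∈ φ (e n)
      · obtain ⟨t, ht, h1⟩ := h1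
        exact ⟨t, ht, Or.inl h1⟩
      · push Not at h1
        exact ⟨r, le_rfl, Or.inr fun t ht => h1 t ht⟩
    choose f hf1 hf2 using step
    let s : ℕ → Cnd := fun n => Nat.rec (f 0 p) (fun n y => f (n + 1) y) n
    have hs : ∀ n, s (n + 1) ≤ s n := fun n => hf1 (n + 1) (s n)
    have hs0 : s 0 ≤ p := hf1 0 p
    have hs2 : ∀ n, s n ∈ φ (e n) ∨ s n ∈ fnot (φ (e n)) := by
      intro n
      cases n with
      | zero => exact hf2 0 p
      | succ n => exact hf2 (n + 1) (s n)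
    obtain ⟨q, hq⟩ := closed s hs
    refine ⟨q, (hq 0).trans hs0, fun y => ?_⟩
    obtain ⟨n, rfl⟩ := he y
    rcases hs2 n with h1 | h1
    · exact Or.inl (hφ _ _ h1 _ (hq n))
    · exact Or.inr (down_fnot _ _ h1 _ (hq n))

theorem noNew {Y : Type} [Countable Y] (p : Cnd) : p ∈ NoNewSubsets Cnd Y := by
  intro x
  refine mem_fex.2 fun q _ => ?_
  obtain ⟨t, ht, h1⟩ := decide_seq (fun y : Y => meets (x y)) (fun _ => down_meets _) q
  refine ⟨t, ht, {y | t ∈ meets (x y)}, fun y => ⟨?_, ?_⟩⟩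
  · refine mem_fimp.2 fun r hr h2 => ⟨r, le_rfl, ?_⟩
    rcases h1 y with h | h
    · exact h
    · exact absurd h2 (h r hr)
  · exact fimp_of fun r hr h2 => down_meets _ _ h2 _ hr

/-- The name of the `i`-th generic ultrafilter. -/
def gen (i : ℕ) (B : Set ℕ) : Set Cnd := {p | (p i).1 = B}

/-- change one coordinate of a condition -/
theorem exists_upd (p : Cnd) (i : ℕ) (B : Set ℕ) (hB : B.Infinite) (h : (B \ (p i).1).Finite) :
    ∃ q ≤ p, (q i).1 = B ∧ ∀ j ≠ i, q j = p j := by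
  classical
  refine ⟨fun j => if j = i then ⟨B, hB⟩ else p j, fun j => ?_, by simp, fun j hj => by simp [hj]⟩
  by_cases hj : j = i
  · subst hj
    simpa using h
  · simp [hj]

theorem forces_gen {p : Cnd} {i : ℕ} {B : Set ℕ} :
    p ∈ meets (gen i B) ↔ ((p i).1 \ B).Finite := by
  constructor
  · intro h
    by_contra hcon
    obtain ⟨q, hq, hq1, _⟩ := exists_upd p i ((p i).1 \ B) hcon
      (by
        have : ((p i).1 \ B) \ (p i).1 = ∅ := by
          ext x; simp only [mem_sdiff, mem_empty_iff_false, iff_false]; tauto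
        rw [this]; exact finite_empty)
    obtain ⟨r, hr, s, hs, hrs⟩ := h q hq
    have h1 : ((r i).1 \ ((p i).1 \ B)).Finite := by
      have := hr i
      rwa [hq1] at this
    have h2 : ((r i).1 \ B).Finite := by
      have := hrs i
      rwa [show (s i).1 = B from hs] at this
    apply (r i).2
    refine (h1.union h2).subset ?_
    intro x hx
    by_cases hb : x ∈ B
    · exact Or.inl ⟨hx, fun h => h.2 hb⟩
    · exact Or.inr ⟨hx, hb⟩
  · intro h
    have hB : B.Infinite := by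
      intro hB
      exact (p i).2 ((h.union hB).subset fun x hx => by
        by_cases hb : x ∈ B
        · exact Or.inr hb
        · exact Or.inl ⟨hx, hb⟩)
    intro q hq
    classical
    refine ⟨q, le_rfl, fun j => if j = i then ⟨B, hB⟩ else q j, ?_, fun j => ?_⟩
    · change (if i = i then (⟨B, hB⟩ : {A : Set ℕ // A.Infinite}) else q i).1 = B
      simp
    by_cases hj : j = i
    · subst hj
      simpa using fin_trans (hq j) h
    · simp [hj]

/-- sets which are decided -/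
theorem exists_decide (p : Cnd) (i : ℕ) (B : Set ℕ) :
    ∃ q ≤ p, (((q i).1 \ B).Finite ∨ ((q i).1 \ Bᶜ).Finite) ∧ ∀ j ≠ i, q j = p j := by
  by_cases h : ((p i).1 \ B).Finite
  · exact ⟨p, le_rfl, Or.inl h, fun _ _ => rfl⟩
  · obtain ⟨q, hq, hq1, hq2⟩ := exists_upd p i ((p i).1 \ B) h
      (by
        have : ((p i).1 \ B) \ (p i).1 = ∅ := by
          ext x; simp only [mem_sdiff, mem_empty_iff_false, iff_false]; tauto
        rw [this]; exact finite_empty)
    refine ⟨q, hq, Or.inr ?_, hq2⟩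
    rw [hq1]
    have : ((p i).1 \ B) \ Bᶜ = ∅ := by
      ext x; simp only [mem_sdiff, mem_compl_iff, not_not, mem_empty_iff_false, iff_false]; tauto
    rw [this]; exact finite_empty

theorem infinite_of_forces {p : Cnd} {i : ℕ} {B : Set ℕ} (h : ((p i).1 \ B).Finite) :
    B.Infinite := by
  intro hB
  exact (p i).2 ((h.union hB).subset fun x hx => by
    by_cases hb : x ∈ B
    · exact Or.inr hb
    · exact Or.inl ⟨hx, hb⟩)

theorem not_both {p : Cnd} {i : ℕ} {B : Set ℕ} (h : ((p i).1 \ B).Finite)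
    (h' : ((p i).1 \ Bᶜ).Finite) : False := by
  apply (p i).2
  refine (h.union h').subset ?_
  intro x hx
  by_cases hb : x ∈ B
  · exact Or.inr ⟨hx, fun h => h hb⟩
  · exact Or.inl ⟨hx, hb⟩

theorem gen_ultra (i : ℕ) (p : Cnd) : p ∈ IsUltra (gen i) := by
  refine ⟨fun B B' => fimp_of fun q _ h => ?_, fun B B' => fimp_of fun q _ h => ?_,
    fun B => ⟨?_, ?_⟩, fun B => fimp_of fun q _ h => ?_⟩
  · have hBB : B ⊆ B' := h.2
    exact forces_gen.2 ((forces_gen.1 h.1).subset (sdiff_subset_sdiff_right hBB))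
  · refine forces_gen.2 (((forces_gen.1 h.1).union (forces_gen.1 h.2)).subset ?_)
    intro x hx
    by_cases hb : x ∈ B
    · exact Or.inr ⟨hx.1, fun hb' => hx.2 ⟨hb, hb'⟩⟩
    · exact Or.inl ⟨hx.1, hb⟩
  · refine fimp_of fun q _ h r hr h' => ?_
    exact not_both (forces_gen.1 h') (forces_gen.1 (down_meets _ _ h _ hr))
  · refine mem_fimp.2 fun q _ h => ?_
    obtain ⟨r, hr, h1, _⟩ := exists_decide q i B
    rcases h1 with h1 | h1
    · exact absurd (forces_gen.2 h1) (h r hr)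
    · exact ⟨r, hr, forces_gen.2 h1⟩
  · exact infinite_of_forces (forces_gen.1 h)

/-- every function is constant or injective on an infinite subset of a given infinite set -/
theorem exists_homog (A : Set ℕ) (hA : A.Infinite) (f : ℕ → ℕ) :
    ∃ B ⊆ A, B.Infinite ∧ ((∃ c, ∀ x ∈ B, f x = c) ∨ InjOn f B) := by
  by_cases h : ∃ c, {x | x ∈ A ∧ f x = c}.Infinite
  · obtain ⟨c, hc⟩ := h
    exact ⟨_, fun x hx => hx.1, hc, Or.inl ⟨c, fun x hx => hx.2⟩⟩
  · push Not at h
    have h1 : (f '' A).Infinite := by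
      intro hf
      apply hA
      refine (hf.biUnion fun c _ => h c).subset ?_
      intro x hx
      exact mem_biUnion (mem_image_of_mem f hx) ⟨hx, rfl⟩
    obtain ⟨B, hBA, hB⟩ : ∃ B ⊆ A, BijOn f B (f '' A) := (surjOn_image f A).exists_bijOn_subset
    refine ⟨B, hBA, ?_, Or.inr hB.injOn⟩
    intro hfin
    apply h1
    rw [← hB.image_eq]
    exact hfin.image f

theorem exists_le_homog (p : Cnd) (i : ℕ) (f : ℕ → ℕ) : ∃ q ≤ p, ∃ B, q ∈ meets (gen i B) ∧
    ((∃ c, ∀ x ∈ B, f x = c) ∨ InjOn f B) := by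
  obtain ⟨B, hB1, hB2, hB3⟩ := exists_homog (p i).1 (p i).2 f
  obtain ⟨q, hq, hq1, _⟩ := exists_upd p i B hB2 (by
    rw [sdiff_eq_empty.2 hB1]; exact finite_empty)
  refine ⟨q, hq, B, forces_gen.2 ?_, hB3⟩
  rw [hq1]
  simp

theorem gen_ppoint (i : ℕ) (p : Cnd) : p ∈ IsPPoint (gen i) := by
  refine ⟨gen_ultra i p, fun f => mem_fex.2 fun q _ => ?_⟩
  obtain ⟨r, hr, B, hB1, hB2⟩ := exists_le_homog q i f
  refine ⟨r, hr, B, hB1, ?_⟩
  rcases hB2 with h | h
  · exact Or.inl h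
  · refine Or.inr fun c => Set.Subsingleton.finite ?_
    intro x hx y hy
    exact h hx.1 hy.1 (hx.2.trans hy.2.symm)

/-- The name of the Fubini limit of the ultrafilters with indices `1, 2, …` along the ultrafilter
with index `0`. -/
abbrev FL : Set (ℕ × ℕ) → Set Cnd := fubiniLim (gen 0) fun n => gen (n + 1)

/-- the `n`-th section -/
def sec (A : Set (ℕ × ℕ)) (n : ℕ) : Set ℕ := {m | (n, m) ∈ A}

/-- `p` decides the Fubini limit to contain `A` -/
def Puts (p : Cnd) (A : Set (ℕ × ℕ)) : Prop :=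
  ((p 0).1 \ {n | ((p (n + 1)).1 \ sec A n).Finite}).Finite

theorem forces_FL_of {p : Cnd} {A : Set (ℕ × ℕ)} (h : Puts p A) : p ∈ meets (FL A) := by
  change p ∈ meets (fex _)
  rw [meets_fex]
  refine mem_fex.2 fun q hq => ?_
  obtain ⟨r, hr, h1⟩ := decide_seq (fun n : ℕ => meets (gen (n + 1) (sec A n)))
    (fun _ => down_meets _) q
  refine ⟨r, hr, {n | r ∈ meets (gen (n + 1) (sec A n))}, forces_gen.2 ?_, fun n => ⟨?_, ?_⟩⟩
  · refine fin_trans ((hr.trans hq) 0) (h.subset ?_)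
    intro n hn
    refine ⟨hn.1, fun hn' => hn.2 ?_⟩
    exact forces_gen.2 (fin_trans ((hr.trans hq) (n + 1)) hn')
  · exact fimp_of fun t ht h2 => down_meets _ _ h2 _ ht
  · refine fimp_of fun t ht h2 => ?_
    rcases h1 n with h3 | h3
    · exact h3
    · exact absurd h2 (h3 t ht)

/-- below a condition which forces `A` to be in the Fubini limit there is one that puts it in -/
theorem exists_puts {p : Cnd} {A : Set (ℕ × ℕ)} (h : p ∈ meets (FL A)) :
    ∃ q ≤ p, Puts q A := by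
  change p ∈ meets (fex _) at h
  rw [meets_fex] at h
  obtain ⟨q, hq, Z, hZ, h1⟩ := mem_fex.1 h p le_rfl
  obtain ⟨r, hr, h2⟩ := decide_seq (fun n : ℕ => meets (gen (n + 1) (sec A n)))
    (fun _ => down_meets _) q
  refine ⟨r, hr.trans hq, ?_⟩
  refine (forces_gen.1 (down_meets _ _ hZ _ hr)).subset ?_
  rintro n ⟨hn1, hn2⟩
  refine ⟨hn1, fun hn3 => hn2 ?_⟩
  rcases h2 n with h3 | h3
  · exact forces_gen.1 h3
  · obtain ⟨t, ht, h4⟩ := mem_fimp.1 (h1 n).1 r hr hn3
    exact absurd h4 (h3 t ht)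

theorem Puts.mono {p q : Cnd} {A : Set (ℕ × ℕ)} (h : Puts p A) (hq : q ≤ p) : Puts q A := by
  refine fin_trans (hq 0) (h.subset ?_)
  rintro n ⟨hn1, hn2⟩
  exact ⟨hn1, fun hn3 => hn2 (fin_trans (hq (n + 1)) hn3)⟩

theorem Puts.infinite {p : Cnd} {A : Set (ℕ × ℕ)} (h : Puts p A) :
    ∃ n, (sec A n).Infinite ∧ n ∈ (p 0).1 := by
  by_contra hcon
  push Not at hcon
  apply (p 0).2
  refine h.subset ?_
  intro n hn
  refine ⟨hn, fun hn' => ?_⟩
  exact hcon n (infinite_of_forces hn') hn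

theorem Puts.inter {p : Cnd} {A B : Set (ℕ × ℕ)} (h : Puts p A) (h' : Puts p B) :
    Puts p (A ∩ B) := by
  refine (Finite.union h h').subset ?_
  rintro n ⟨hn1, hn2⟩
  by_contra hcon
  simp only [mem_union, not_or, mem_sdiff, not_and, not_not] at hcon
  obtain ⟨c1, c2⟩ := hcon
  apply hn2
  refine (Finite.union (c1 hn1) (c2 hn1)).subset ?_
  rintro x ⟨hx1, hx2⟩
  by_cases hx : x ∈ sec A n
  · exact Or.inr ⟨hx1, fun h => hx2 ⟨hx, h⟩⟩
  · exact Or.inl ⟨hx1, hx⟩

theorem Puts.superset {p : Cnd} {A B : Set (ℕ × ℕ)} (h : Puts p A) (hAB : A ⊆ B) :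
    Puts p B := by
  refine h.subset ?_
  rintro n ⟨hn1, hn2⟩
  refine ⟨hn1, fun hn3 => hn2 (hn3.subset ?_)⟩
  rintro x ⟨hx1, hx2⟩
  exact ⟨hx1, fun h => hx2 (hAB h)⟩

theorem puts_empty {p : Cnd} (h : Puts p ∅) : False := by
  obtain ⟨n, hn, _⟩ := h.infinite
  exact hn (by simp [sec])

theorem decide_puts (p : Cnd) (A : Set (ℕ × ℕ)) : ∃ q ≤ p, Puts q A ∨ Puts q Aᶜ := by
  classical
  let q : Cnd := fun i => match i with
    | 0 => p 0
    | n + 1 => if h : ((p (n + 1)).1 ∩ sec A n).Infinite then ⟨_, h⟩ else p (n + 1)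
  have hq0 : q 0 = p 0 := rfl
  have hqs : ∀ n, q (n + 1) = if h : ((p (n + 1)).1 ∩ sec A n).Infinite then ⟨_, h⟩
      else p (n + 1) := fun n => rfl
  have hq : q ≤ p := by
    intro i
    cases i with
    | zero => rw [hq0]; simp
    | succ n =>
      rw [hqs]
      split_ifs with h
      · rw [sdiff_eq_empty.2 inter_subset_left]; exact finite_empty
      · simp
  let Z : Set ℕ := {n | ((p (n + 1)).1 ∩ sec A n).Infinite}
  have hZ1 : ∀ n ∈ Z, ((q (n + 1)).1 \ sec A n).Finite := by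
    intro n hn
    rw [hqs, dif_pos (show ((p (n + 1)).1 ∩ sec A n).Infinite from hn),
      sdiff_eq_empty.2 inter_subset_right]
    exact finite_empty
  have hZ2 : ∀ n ∉ Z, ((q (n + 1)).1 \ sec Aᶜ n).Finite := by
    intro n hn
    rw [hqs, dif_neg (show ¬ ((p (n + 1)).1 ∩ sec A n).Infinite from hn)]
    refine (not_infinite.1 hn).subset ?_
    rintro x ⟨hx1, hx2⟩
    refine ⟨hx1, ?_⟩
    by_contra hx3
    exact hx2 hx3
  obtain ⟨r, hr, h1, _⟩ := exists_decide q 0 Z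
  refine ⟨r, hr.trans hq, ?_⟩
  rcases h1 with h1 | h1
  · left
    refine h1.subset ?_
    rintro n ⟨hn1, hn2⟩
    exact ⟨hn1, fun hn3 => hn2 (fin_trans (hr (n + 1)) (hZ1 n hn3))⟩
  · right
    refine h1.subset ?_
    rintro n ⟨hn1, hn2⟩
    refine ⟨hn1, fun hn3 => hn2 (fin_trans (hr (n + 1)) (hZ2 n hn3))⟩

theorem meets_of_dense {N : Set Cnd} {p : Cnd} (h : ∀ q ≤ p, ∃ r ≤ q, r ∈ meets N) :
    p ∈ meets N := by
  intro q hq
  obtain ⟨r, hr, h1⟩ := h q hq
  obtain ⟨t, ht, s, hs, hts⟩ := h1 r le_rfl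
  exact ⟨t, ht.trans hr, s, hs, hts⟩

theorem FL_ultra (p : Cnd) : p ∈ IsUltra FL := by
  refine ⟨fun B B' => mem_fimp.2 fun q _ h => ?_, fun B B' => mem_fimp.2 fun q _ h => ?_,
    fun B => ⟨?_, ?_⟩, fun B => mem_fimp.2 fun q _ h => ?_⟩
  · obtain ⟨r, hr, h1⟩ := exists_puts h.1
    exact ⟨r, hr, forces_FL_of (h1.superset h.2)⟩
  · obtain ⟨r, hr, h1⟩ := exists_puts h.1
    obtain ⟨t, ht, h2⟩ := exists_puts (down_meets _ _ h.2 _ hr)
    exact ⟨t, ht.trans hr, forces_FL_of ((h1.mono ht).inter h2)⟩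
  · refine fimp_of fun q _ h r hr h' => ?_
    obtain ⟨t, ht, h1⟩ := exists_puts (down_meets _ _ h _ hr)
    obtain ⟨u, hu, h2⟩ := exists_puts (down_meets _ _ h' _ ht)
    have h3 := (h1.mono hu).inter h2
    rw [compl_inter_self] at h3
    exact puts_empty h3
  · refine mem_fimp.2 fun q _ h => ?_
    obtain ⟨r, hr, h1⟩ := decide_puts q B
    rcases h1 with h1 | h1
    · exact absurd (forces_FL_of h1) (h r hr)
    · exact ⟨r, hr, forces_FL_of h1⟩
  · obtain ⟨r, hr, h1⟩ := exists_puts h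
    obtain ⟨n, hn, _⟩ := h1.infinite
    refine ⟨r, hr, fun hf => hn ?_⟩
    exact Set.Finite.of_finite_image (f := fun m => (n, m)) (hf.subset (by
      rintro _ ⟨m, hm, rfl⟩; exact hm)) (fun a _ b _ h => (Prod.ext_iff.1 h).2)

/-- infinite subsets of countably many infinite sets on which a given finite-to-one function is
injective -/
theorem exists_inj (p : ℕ → Set ℕ) (hp : ∀ n, (p n).Infinite) (f : ℕ × ℕ → ℕ)
    (hf : ∀ c, {x | f x = c}.Finite) : ∃ q : ℕ → Set ℕ, (∀ n, (q n).Infinite) ∧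
    (∀ n, q n ⊆ p n) ∧ InjOn f {x | x.2 ∈ q x.1} := by
  -- choose the points one after the other
  have step : ∀ (k : ℕ) (F : Finset (ℕ × ℕ)), ∃ m, m ∈ p (Nat.unpair k).1 ∧
      ∀ y ∈ F, f ((Nat.unpair k).1, m) ≠ f y ∧ y ≠ ((Nat.unpair k).1, m) := by
    intro k F
    have h1 : {m | ∃ y ∈ F, f ((Nat.unpair k).1, m) = f y}.Finite := by
      have h2 : (⋃ y ∈ (F : Set (ℕ × ℕ)), {x | f x = f y}).Finite :=
        F.finite_toSet.biUnion fun y _ => hf (f y)
      refine Set.Finite.of_finite_image (f := fun m => ((Nat.unpair k).1, m)) (h2.subset ?_)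
        (fun a _ b _ h => (Prod.ext_iff.1 h).2)
      rintro _ ⟨m, ⟨y, hy, hm⟩, rfl⟩
      exact mem_biUnion (Finset.mem_coe.2 hy) hm
    obtain ⟨m, hm1, hm2⟩ := ((hp (Nat.unpair k).1).sdiff h1).nonempty
    refine ⟨m, hm1, fun y hy => ⟨fun h => hm2 ⟨y, hy, h⟩, fun h => hm2 ⟨y, hy, ?_⟩⟩⟩
    rw [h]
  choose g hg1 hg2 using step
  classical
  let S : ℕ → Finset (ℕ × ℕ) := fun k => Nat.rec ∅
    (fun k F => insert ((Nat.unpair k).1, g k F) F) k
  have hS : ∀ k, S (k + 1) = insert ((Nat.unpair k).1, g k (S k)) (S k) := fun k => rfl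
  let x : ℕ → ℕ × ℕ := fun k => ((Nat.unpair k).1, g k (S k))
  have hmono : Monotone S := monotone_nat_of_le_succ fun k => by
    rw [hS]; exact Finset.subset_insert _ _
  have hxS : ∀ j k, j < k → x j ∈ S k := by
    intro j k hjk
    apply hmono hjk
    rw [hS]; exact Finset.mem_insert_self _ _
  have hne : ∀ j k, j < k → f (x j) ≠ f (x k) ∧ x j ≠ x k := by
    intro j k hjk
    have h1 := hg2 k (S k) (x j) (hxS j k hjk)
    exact ⟨fun h => h1.1 h.symm, h1.2⟩
  refine ⟨fun n => {m | ∃ k, x k = (n, m)}, fun n => ?_, ?_, ?_⟩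
  · -- infinite
    have h1 : (Set.range fun j => x (Nat.pair n j)).Infinite := by
      apply infinite_range_of_injective
      intro i j hij
      by_contra hne'
      have h2 : Nat.pair n i ≠ Nat.pair n j := fun h => hne' (Nat.pair_eq_pair.1 h).2
      rcases lt_or_gt_of_ne h2 with h3 | h3
      · exact (hne _ _ h3).2 hij
      · exact (hne _ _ h3).2 hij.symm
    intro hfin
    apply h1
    refine (hfin.image fun m => (n, m)).subset ?_
    rintro _ ⟨j, rfl⟩
    refine ⟨(x (Nat.pair n j)).2, ⟨Nat.pair n j, ?_⟩, ?_⟩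
    · ext
      · simp [x]
      · rfl
    · ext
      · simp [x]
      · rfl
  · rintro n m ⟨k, hk⟩
    have h1 := hg1 k (S k)
    have h2 : (Nat.unpair k).1 = n := congrArg Prod.fst hk
    have h3 : g k (S k) = m := congrArg Prod.snd hk
    rwa [h2, h3] at h1
  · rintro ⟨a, b⟩ ⟨j, hj⟩ ⟨c, d⟩ ⟨k, hk⟩ hfe
    change x j = (a, b) at hj
    change x k = (c, d) at hk
    rw [← hj, ← hk] at hfe ⊢
    rcases lt_trichotomy j k with h | h | h
    · exact absurd hfe (hne _ _ h).1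
    · rw [h]
    · exact absurd hfe.symm (hne _ _ h).1

theorem FL_qpoint (p : Cnd) : p ∈ IsQPoint FL := by
  refine ⟨FL_ultra p, fun f => fimp_of fun q _ hf => mem_fex.2 fun r _ => ?_⟩
  obtain ⟨B, hB1, hB2, hB3⟩ := exists_inj (fun n => (r (n + 1)).1) (fun n => (r (n + 1)).2) f hf
  let t : Cnd := fun i => match i with
    | 0 => r 0
    | n + 1 => ⟨B n, hB1 n⟩
  have ht : t ≤ r := by
    intro i
    cases i with
    | zero => change ((r 0).1 \ (r 0).1).Finite; simp
    | succ n =>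
      change (B n \ (r (n + 1)).1).Finite
      rw [sdiff_eq_empty.2 (hB2 n)]; exact finite_empty
  refine ⟨t, ht, _, forces_FL_of ?_, hB3⟩
  have h1 : {n : ℕ | ((t (n + 1)).1 \ sec {x : ℕ × ℕ | x.2 ∈ B x.1} n).Finite} = univ := by
    ext n
    simp only [mem_univ, iff_true]
    change (B n \ B n).Finite
    simp
  unfold Puts
  rw [h1]
  simp

theorem FL_not_selective (p : Cnd) : p ∈ fnot (IsSelective FL) := by
  intro q _ hsel
  obtain ⟨r, hr, B, hB1, hB2⟩ := mem_fex.1 (hsel.2 Prod.fst) q le_rfl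
  obtain ⟨t, ht, h1⟩ := exists_puts hB1
  obtain ⟨n, hn, hn'⟩ := h1.infinite
  rcases hB2 with ⟨c, hc⟩ | hinj
  · -- constant: but the member of the filter has infinitely many nonempty sections
    apply (t 0).2
    refine (Finite.union h1 (finite_singleton c)).subset ?_
    intro k hk
    by_cases hkc : k = c
    · exact Or.inr hkc
    · refine Or.inl ⟨hk, fun hk' => ?_⟩
      obtain ⟨m, hm⟩ := (infinite_of_forces hk').nonempty
      exact hkc (hc (k, m) hm)
  · obtain ⟨m, hm, m', hm', hmm⟩ := hn.nontrivial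
    have h2 := hinj (show ((n, m) : ℕ × ℕ) ∈ B from hm) (show ((n, m') : ℕ × ℕ) ∈ B from hm') rfl
    exact hmm (Prod.ext_iff.1 h2).2

theorem tukey_refl {X : Type} (U : Set X → Set Cnd) (p : Cnd) : p ∈ TukeyLE U U := by
  refine mem_fex.2 fun q _ => ⟨q, le_rfl, fun A B => {r | A = B}, ?_, ?_, ?_⟩
  · intro A
    refine fimp_of fun r _ h => mem_fex.2 fun t ht => ⟨t, le_rfl, A, ?_, down_meets _ _ h _ ht⟩
    exact fun u hu => ⟨u, le_rfl, u, rfl, le_rfl⟩
  · intro A A' B B'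
    refine fimp_of fun r _ h => ?_
    obtain ⟨_, _, _, h1, _⟩ := h.1.1 r le_rfl
    obtain ⟨_, _, _, h2, _⟩ := h.1.2 r le_rfl
    have h3 : A ⊆ A' := h.2
    have h1' : A = B := h1
    have h2' : A' = B' := h2
    show B ⊆ B'
    rw [← h1', ← h2']
    exact h3
  · intro C
    refine fimp_of fun r _ h => mem_fex.2 fun t ht => ⟨t, le_rfl, C, ?_⟩
    refine mem_fex.2 fun u hu => ⟨u, le_rfl, C, ?_, ?_, (subset_rfl : C ⊆ C)⟩
    · exact down_meets _ _ h _ (hu.trans ht)
    · exact fun v _ => ⟨v, le_rfl, v, rfl, le_rfl⟩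

end Pool.Agent.H12A.QP
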