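import Pool.Agent.H12A.QP.Force

/-!
# A Fubini iterate of p-points which is a q-point and not selective

There is a forcing notion (the full support product of countably many copies of `P(ω)/fin`) which
adds no new subsets of countable sets and all of whose conditions force that there are p-points
`W` and `V n` such that the Fubini limit of the `V n` along `W` (a Fubini iterate of p-points of
depth 2) is a q-point which is not selective. So the negated form of Q1 is consistent with ZFC, with
`U = V` and the identity as the Tukey reduction.
-/

set_option autoImplicit false

namespace Pool.Agent.H12A.QP.NonSelectiveIterate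

open Pool.Agent.H12A.QP

/-- There is a forcing notion, every condition of which forces that all subsets of countable sets
are in the ground model and that there are p-points `W` and `V n` (`n < ω`) such that the Fubini
limit of the `V n` along `W` is a q-point, is not selective, and is Tukey reducible to itself. -/
theorem result : ∃ (P : Type) (_ : Preorder P), Nonempty P ∧ ∀ p : P,
    (∀ (Y : Type) [Countable Y], p ∈ NoNewSubsets P Y) ∧
    p ∈ fex fun W : Set ℕ → Set P => fex fun V : ℕ → Set ℕ → Set P =>
      fand (IsPPoint W) (fand (fall fun n : ℕ => IsPPoint (V n))
        (fand (IsQPoint (fubiniLim W V)) (fand (fnot (IsSelective (fubiniLim W V)))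
          (TukeyLE (fubiniLim W V) (fubiniLim W V))))) := by
  refine ⟨Cnd, inferInstance, inferInstance, fun p => ⟨fun Y _ => noNew p, ?_⟩⟩
  refine mem_fex.2 fun q _ => ⟨q, le_rfl, gen 0, mem_fex.2 fun r _ => ⟨r, le_rfl,
    fun n => gen (n + 1), gen_ppoint 0 r, fun n => gen_ppoint (n + 1) r, FL_qpoint r,
    FL_not_selective r, tukey_refl _ r⟩⟩

end Pool.Agent.H12A.QP.NonSelectiveIterate
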